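import Mathlib

open MeasureTheory ProbabilityTheory Filter Topology

namespace Pool.Agent.Results.MP_352fa8_pr.SmallGiant

/-- The hypercube graph `Q_n`: vertices are the functions `Fin n → Bool`, two of them are
adjacent when they differ in exactly one coordinate. -/
def cube (n : ℕ) : SimpleGraph (Fin n → Bool) where
  Adj u v := hammingDist u v = 1
  symm := ⟨fun u v h => by rw [hammingDist_comm]; exact h⟩
  loopless := ⟨fun u h => by simp at h⟩

/-- The probability of an event. -/
noncomputable def prob {α : Type*} (μ : PMF α) (E : Set α) : ENNReal := μ.toOuterMeasure E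

/-- `Model G p μ` : `μ` is a 1-independent percolation model on `G` in which every edge is open
with probability at least `p`. -/
structure Model {V : Type*} (G : SimpleGraph V) (p : ℝ) (μ : PMF (SimpleGraph V)) : Prop where
  /-- the random graph is a spanning subgraph of `G` -/
  sub : ∀ H ∈ μ.support, H ≤ G
  /-- the restrictions to two disjoint vertex sets are independent -/
  indep : ∀ S T : Set V, Disjoint S T → ∀ (A : Set (SimpleGraph S)) (B : Set (SimpleGraph T)),
    prob μ {H | H.induce S ∈ A ∧ H.induce T ∈ B} =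
      prob μ {H | H.induce S ∈ A} * prob μ {H | H.induce T ∈ B}
  /-- every edge is open with probability at least `p` -/
  edge : ∀ u v, G.Adj u v → ENNReal.ofReal p ≤ prob μ {H | H.Adj u v}

section product

variable {V : Type*} [Fintype V] (ν : V → Measure (Fin 3)) [∀ v, IsProbabilityMeasure (ν v)]

lemma indep_coord : iIndepFun (fun (v : V) (ω : V → Fin 3) => ω v) (Measure.pi ν) :=
  iIndepFun_pi (X := fun (_ : V) (x : Fin 3) => x) (fun _ => measurable_id.aemeasurable)

lemma indep_sets (S T : Set V) (hST : Disjoint S T) {α β : Type*}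
    (F : (V → Fin 3) → α) (G : (V → Fin 3) → β)
    (hF : ∀ ω ω' : V → Fin 3, (∀ v ∈ S, ω v = ω' v) → F ω = F ω')
    (hG : ∀ ω ω' : V → Fin 3, (∀ v ∈ T, ω v = ω' v) → G ω = G ω') (A : Set α) (B : Set β) :
    Measure.pi ν {ω | F ω ∈ A ∧ G ω ∈ B} =
      Measure.pi ν {ω | F ω ∈ A} * Measure.pi ν {ω | G ω ∈ B} := by
  classical
  have hd : Disjoint S.toFinset T.toFinset := by
    rw [Finset.disjoint_left]
    intro a ha hb
    exact (Set.disjoint_left.1 hST) (by simpa using ha) (by simpa using hb)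
  have h := (indep_coord ν).indepFun_finset S.toFinset T.toFinset hd
    (fun i => measurable_pi_apply i)
  let ΦS : (S.toFinset → Fin 3) → α := fun x =>
    F (fun v => if hv : v ∈ S.toFinset then x ⟨v, hv⟩ else 0)
  let ΦT : (T.toFinset → Fin 3) → β := fun x =>
    G (fun v => if hv : v ∈ T.toFinset then x ⟨v, hv⟩ else 0)
  have e1 : ∀ ω, ΦS (fun i : S.toFinset => ω i) = F ω := by
    intro ω
    apply hF
    intro v hv
    simp [hv]
  have e2 : ∀ ω, ΦT (fun i : T.toFinset => ω i) = G ω := by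
    intro ω
    apply hG
    intro v hv
    simp [hv]
  have key := h.measure_inter_preimage_eq_mul (ΦS ⁻¹' A) (ΦT ⁻¹' B)
    (MeasurableSet.of_discrete) (MeasurableSet.of_discrete)
  have s1 : (fun (a : V → Fin 3) (i : S.toFinset) => a i) ⁻¹' (ΦS ⁻¹' A) = {ω | F ω ∈ A} := by
    ext ω
    simp only [Set.mem_preimage, Set.mem_ofPred_eq]
    rw [e1]
  have s2 : (fun (a : V → Fin 3) (i : T.toFinset) => a i) ⁻¹' (ΦT ⁻¹' B) = {ω | G ω ∈ B} := by
    ext ω
    simp only [Set.mem_preimage, Set.mem_ofPred_eq]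
    rw [e2]
  rw [s1, s2] at key
  exact key

lemma pair_integral (u v : V) (huv : u ≠ v) (F : Fin 3 → Fin 3 → ℝ) :
    ∫ ω, F (ω u) (ω v) ∂(Measure.pi ν) =
      ∑ a, ∑ b, (ν u).real {a} * (ν v).real {b} * F a b := by
  have h := (indep_coord ν).indepFun huv
  have hm : (Measure.pi ν).map (fun ω => (ω u, ω v)) = (ν u).prod (ν v) := by
    have := (indepFun_iff_map_prod_eq_prod_map_map (measurable_pi_apply u).aemeasurable
      (measurable_pi_apply v).aemeasurable).1 h
    rw [this, (measurePreserving_eval ν u).map_eq, (measurePreserving_eval ν v).map_eq]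
  have h2 : ∫ ω, F (ω u) (ω v) ∂(Measure.pi ν) =
      ∫ x, F x.1 x.2 ∂((Measure.pi ν).map (fun ω => (ω u, ω v))) := by
    rw [integral_map]
    · exact ((measurable_pi_apply u).prodMk (measurable_pi_apply v)).aemeasurable
    · exact (measurable_of_countable _).aestronglyMeasurable
  rw [h2, hm, integral_fintype (Integrable.of_finite), Fintype.sum_prod_type]
  refine Finset.sum_congr rfl fun a _ => Finset.sum_congr rfl fun b _ => ?_
  have : ({(a, b)} : Set (Fin 3 × Fin 3)) = {a} ×ˢ {b} := by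
    ext ⟨x, y⟩
    simp
  rw [this, measureReal_prod_prod, smul_eq_mul]

end product

section types

/-- The weights of the three types (label `0`, label `1`, pointer `2`) in the two facets. -/
noncomputable def wt (p : ℝ) : Bool → Fin 3 → ℝ
  | false => ![√p, 0, 1 - √p]
  | true => ![√(2 * p - 1) / √p, (1 - p) / √p, 1 - √(2 * p - 1) / √p - (1 - p) / √p]

/-- The law of the type of a vertex. -/
noncomputable def law (p : ℝ) (b : Bool) : Measure (Fin 3) :=
  ∑ i, ENNReal.ofReal (wt p b i) • Measure.dirac i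

/-- the range of the parameter -/
def InRange (p : ℝ) : Prop := 1 / 2 < p ∧ p ≤ 4 - 2 * √3

lemma s_bounds {p : ℝ} (h : InRange p) : 0 < √p ∧ √p < 1 ∧ √p ≤ √3 - 1 ∧ p < 1 ∧ √p ^ 2 = p ∧
    1 / 2 < √p ^ 2 ∧ √(2 * p - 1) ^ 2 = 2 * p - 1 ∧ 0 < √(2 * p - 1) := by
  obtain ⟨h1, h2⟩ := h
  have h3 : √3 ^ 2 = 3 := Real.sq_sqrt (by norm_num)
  have h3' : 0 ≤ √3 := Real.sqrt_nonneg 3
  have hp0 : 0 ≤ p := by linarith
  have hs : √p ^ 2 = p := Real.sq_sqrt hp0
  have hs0 : 0 < √p := Real.sqrt_pos.2 (by linarith)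
  have h31 : 1 < √3 := by nlinarith
  have h4 : √p ≤ √3 - 1 := by
    apply Real.sqrt_le_iff.2
    constructor
    · linarith
    · nlinarith
  have h5 : p < 1 := by nlinarith
  refine ⟨hs0, ?_, h4, h5, hs, by rw [hs]; exact h1, Real.sq_sqrt (by linarith),
    Real.sqrt_pos.2 (by linarith)⟩
  nlinarith

lemma key_ineq {p : ℝ} (h : InRange p) : √(2 * p - 1) + (1 - p) ≤ √p := by
  obtain ⟨s0, s1, s3, p1, hs, hs2, hr, hr0⟩ := s_bounds h
  have h3 : √3 ^ 2 = 3 := Real.sq_sqrt (by norm_num)
  have h3' : 0 ≤ √3 := Real.sqrt_nonneg 3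
  set s := √p with hsdef
  set r := √(2 * p - 1) with hrdef
  have hA : 0 ≤ s ^ 2 + s - 1 := by nlinarith
  have hB : s ^ 2 + 2 * s - 2 ≤ 0 := by nlinarith
  have hC : 0 ≤ (s ^ 2 - 1) * (s ^ 2 + 2 * s - 2) := by
    apply mul_nonneg_of_nonpos_of_nonpos
    · nlinarith
    · exact hB
  have hD : r ^ 2 ≤ (s ^ 2 + s - 1) ^ 2 := by
    have : (s ^ 2 + s - 1) ^ 2 - (2 * s ^ 2 - 1) = (s ^ 2 - 1) * (s ^ 2 + 2 * s - 2) := by ring
    nlinarith
  have hE : r ≤ s ^ 2 + s - 1 := abs_le_of_sq_le_sq' hD hA |>.2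
  nlinarith

lemma wt_nonneg {p : ℝ} (h : InRange p) (b : Bool) (i : Fin 3) : 0 ≤ wt p b i := by
  obtain ⟨s0, s1, s3, p1, hs, hs2, hr, hr0⟩ := s_bounds h
  have hk := key_ineq h
  cases b <;> fin_cases i
  · simp [wt]
  · simp [wt]
  · simpa [wt] using s1.le
  · simp only [wt]
    exact div_nonneg hr0.le s0.le
  · simp only [wt]
    exact div_nonneg (by linarith) s0.le
  · simp only [wt]
    have : √(2 * p - 1) / √p + (1 - p) / √p ≤ 1 := by
      rw [← add_div, div_le_one s0]
      exact hk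
    show 0 ≤ 1 - √(2 * p - 1) / √p - (1 - p) / √p
    linarith

lemma wt_sum (p : ℝ) (b : Bool) : ∑ i, wt p b i = 1 := by
  cases b <;> simp [wt, Fin.sum_univ_three]

lemma law_singleton (p : ℝ) (b : Bool) (i : Fin 3) :
    law p b {i} = ENNReal.ofReal (wt p b i) := by
  rw [law]
  simp only [Measure.coe_finsetSum, Finset.sum_apply, Measure.smul_apply, smul_eq_mul]
  rw [Finset.sum_eq_single i]
  · simp
  · intro j _ hj
    simp [hj]
  · simp

lemma law_real {p : ℝ} (h : InRange p) (b : Bool) (i : Fin 3) : (law p b).real {i} = wt p b i := by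
  rw [measureReal_def, law_singleton, ENNReal.toReal_ofReal (wt_nonneg h b i)]

lemma law_prob {p : ℝ} (h : InRange p) (b : Bool) : IsProbabilityMeasure (law p b) := by
  constructor
  rw [law]
  simp only [Measure.coe_finsetSum, Finset.sum_apply, Measure.smul_apply, smul_eq_mul,
    measure_univ, mul_one]
  rw [← ENNReal.ofReal_sum_of_nonneg (fun i _ => wt_nonneg h b i), wt_sum]
  simp

end types

section graph

variable {m : ℕ}

/-- The open graph of a configuration of types. -/
def gr (ω : (Fin (m + 1) → Bool) → Fin 3) : SimpleGraph (Fin (m + 1) → Bool) where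
  Adj u v := hammingDist u v = 1 ∧
    ((u 0 = v 0 ∧ ω u = ω v ∧ ω u ≠ 2) ∨ (u 0 ≠ v 0 ∧ (ω u = 2 ∨ ω v = 2 ∨ ω u = ω v)))
  symm := ⟨by
    rintro u v ⟨h, h'⟩
    refine ⟨by rw [hammingDist_comm]; exact h, ?_⟩
    rcases h' with ⟨a, b, c⟩ | ⟨a, b⟩
    · exact Or.inl ⟨a.symm, b.symm, b ▸ c⟩
    · refine Or.inr ⟨fun e => a e.symm, ?_⟩
      rcases b with b | b | b
      · exact Or.inr (Or.inl b)
      · exact Or.inl b
      · exact Or.inr (Or.inr b.symm)⟩
  loopless := ⟨fun u h => by simp at h⟩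

/-- The partner of a vertex in the other facet. -/
def fl (v : Fin (m + 1) → Bool) : Fin (m + 1) → Bool := Function.update v 0 (!v 0)

/-- The class of a pair of types. -/
def cl (a b : Fin 3) : Fin 3 := if a = 2 then b else a

lemma eq_fl {u v : Fin (m + 1) → Bool} (h : hammingDist u v = 1) (h0 : u 0 ≠ v 0) : v = fl u := by
  unfold hammingDist at h
  obtain ⟨i, hi⟩ := Finset.card_eq_one.1 h
  have h0' : (0 : Fin (m + 1)) ∈ Finset.univ.filter (fun i => u i ≠ v i) := by simp [h0]
  rw [hi, Finset.mem_singleton] at h0'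
  funext j
  by_cases hj : j = 0
  · subst hj
    simp only [fl, Function.update_self]
    cases hu : u 0 <;> cases hv : v 0 <;> simp_all
  · have hj' : j ∉ Finset.univ.filter (fun i => u i ≠ v i) := by
      rw [hi, Finset.mem_singleton, ← h0']
      exact hj
    simp only [Finset.mem_filter, Finset.mem_univ, true_and, not_not] at hj'
    simp [fl, hj, hj']

lemma fl_fl (v : Fin (m + 1) → Bool) : fl (fl v) = v := by
  simp [fl]

lemma adj_class (ω : (Fin (m + 1) → Bool) → Fin 3) {u v : Fin (m + 1) → Bool}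
    (h : (gr ω).Adj u v) : cl (ω u) (ω (fl u)) = cl (ω v) (ω (fl v)) := by
  obtain ⟨h1, h2⟩ := h
  rcases h2 with ⟨a, b, c⟩ | ⟨a, b⟩
  · have c' : ω v ≠ 2 := b ▸ c
    simp [cl, b, c']
  · have e := eq_fl h1 a
    have e' : fl v = u := by rw [e, fl_fl]
    rw [← e, e']
    generalize ω u = x at b
    generalize ω v = y at b
    revert x y
    decide

lemma reach_class (ω : (Fin (m + 1) → Bool) → Fin 3) {u v : Fin (m + 1) → Bool}
    (h : (gr ω).Reachable u v) : cl (ω u) (ω (fl u)) = cl (ω v) (ω (fl v)) := by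
  obtain ⟨w⟩ := h
  induction w with
  | nil => rfl
  | cons h _ ih => exact (adj_class ω h).trans ih

end graph

section model

variable {m : ℕ}

/-- The product measure on the types. -/
noncomputable def tm (p : ℝ) (m : ℕ) : Measure ((Fin (m + 1) → Bool) → Fin 3) :=
  Measure.pi (fun v => law p (v 0))

instance tm_prob {p : ℝ} [h : Fact (InRange p)] : IsProbabilityMeasure (tm p m) := by
  have : ∀ b, IsProbabilityMeasure (law p b) := law_prob h.out
  unfold tm
  infer_instance

/-- The percolation model. -/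
noncomputable def mod (p : ℝ) [Fact (InRange p)] (m : ℕ) : PMF (SimpleGraph (Fin (m + 1) → Bool)) :=
  (tm p m).toPMF.map gr

lemma prob_mod (p : ℝ) [Fact (InRange p)] (E : Set (SimpleGraph (Fin (m + 1) → Bool))) :
    prob (mod p m) E = tm p m {ω | gr ω ∈ E} := by
  rw [prob, mod, PMF.toOuterMeasure_map_apply, ← PMF.toMeasure_apply_eq_toOuterMeasure_apply _
    (MeasurableSet.of_discrete), Measure.toPMF_toMeasure]
  rfl

lemma induce_eq (ω ω' : (Fin (m + 1) → Bool) → Fin 3) (S : Set (Fin (m + 1) → Bool))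
    (h : ∀ v ∈ S, ω v = ω' v) : (gr ω).induce S = (gr ω').induce S := by
  ext ⟨a, ha⟩ ⟨b, hb⟩
  simp [gr, h a ha, h b hb]

lemma pair_prob {p : ℝ} (hp : InRange p) (u v : Fin (m + 1) → Bool) (huv : u ≠ v)
    (R : Fin 3 → Fin 3 → Prop) [∀ a b, Decidable (R a b)] :
    (tm p m).real {ω | R (ω u) (ω v)} =
      ∑ a, ∑ b, wt p (u 0) a * wt p (v 0) b * (if R a b then 1 else 0) := by
  have : ∀ b, IsProbabilityMeasure (law p b) := law_prob hp
  have h := pair_integral (fun v : Fin (m + 1) → Bool => law p (v 0)) u v huv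
    (fun a b => if R a b then 1 else 0)
  simp only [law_real hp] at h
  rw [← h, ← integral_indicator_one (MeasurableSet.of_discrete)]
  unfold tm
  congr 1
  funext x
  by_cases hx : R (x u) (x v)
  · rw [Set.indicator_of_mem (by exact hx), if_pos hx]
    rfl
  · rw [Set.indicator_of_notMem (by exact hx), if_neg hx]

lemma model (p : ℝ) [hp : Fact (InRange p)] : Model (cube (m + 1)) p (mod p m) where
  sub := by
    intro H hH
    rw [mod, PMF.mem_support_map_iff] at hH
    obtain ⟨ω, _, rfl⟩ := hH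
    intro u v huv
    exact huv.1
  indep := by
    intro S T hST A B
    have : ∀ b, IsProbabilityMeasure (law p b) := law_prob hp.out
    rw [prob_mod, prob_mod, prob_mod]
    exact indep_sets (fun v : Fin (m + 1) → Bool => law p (v 0)) S T hST
      (fun ω => (gr ω).induce S) (fun ω => (gr ω).induce T)
      (fun ω ω' h => induce_eq ω ω' S h) (fun ω ω' h => induce_eq ω ω' T h) A B
  edge := by
    intro u v huv
    have hne : u ≠ v := by
      rintro rfl
      exact (cube (m + 1)).loopless.irrefl _ huv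
    obtain ⟨s0, s1, s3, p1, hs, hs2, hr, hr0⟩ := s_bounds hp.out
    rw [prob_mod, ← ENNReal.ofReal_toReal (measure_ne_top (tm p m) _)]
    apply ENNReal.ofReal_le_ofReal
    have hd : hammingDist u v = 1 := huv
    by_cases h0 : u 0 = v 0
    · have e : {ω : (Fin (m + 1) → Bool) → Fin 3 | gr ω ∈ {H : SimpleGraph _ | H.Adj u v}} =
          {ω | (fun a b : Fin 3 => a = b ∧ a ≠ 2) (ω u) (ω v)} := by
        ext ω
        simp [gr, hd, h0]
      have := pair_prob (m := m) hp.out u v hne (fun a b => a = b ∧ a ≠ 2)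
      rw [measureReal_def] at this
      rw [e, this, ← h0]
      cases u 0
      · simp [Fin.sum_univ_three, wt]
        nlinarith
      · simp [Fin.sum_univ_three, wt]
        have : √(2 * p - 1) / √p * (√(2 * p - 1) / √p) + (1 - p) / √p * ((1 - p) / √p) = p := by
          field_simp
          nlinarith
        linarith
    · have e : {ω : (Fin (m + 1) → Bool) → Fin 3 | gr ω ∈ {H : SimpleGraph _ | H.Adj u v}} =
          {ω | (fun a b : Fin 3 => a = 2 ∨ b = 2 ∨ a = b) (ω u) (ω v)} := by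
        ext ω
        simp [gr, hd, h0]
      have := pair_prob (m := m) hp.out u v hne (fun a b => a = 2 ∨ b = 2 ∨ a = b)
      rw [measureReal_def] at this
      rw [e, this]
      have hc : √p * ((1 - p) / √p) = 1 - p := by field_simp
      have hc' : √p * (√(2 * p - 1) / √p) = √(2 * p - 1) := by field_simp
      cases hu : u 0 <;> cases hv : v 0
      · exact absurd (hu.trans hv.symm) h0
      · simp [Fin.sum_univ_three, wt]
        nlinarith
      · simp [Fin.sum_univ_three, wt]
        nlinarith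
      · exact absurd (hu.trans hv.symm) h0

end model

section concentration

variable {m : ℕ}

/-- The number of vertices of class `c` in the pair of types `a, b`. -/
noncomputable def cnt (c a b : Fin 3) : ℝ := (if cl a b = c then 1 else 0) + (if cl b a = c then 1 else 0)

/-- The mean of `cnt`. -/
noncomputable def mean (p : ℝ) (c : Fin 3) : ℝ := ∑ a, ∑ b, wt p false a * wt p true b * cnt c a b

/-- The bound for the density of the largest component. -/
noncomputable def giantBound (p : ℝ) : ℝ :=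
  √p - (1 - p) / 2 + √(2 * p - 1) * (1 / √p - 1)

lemma mean_le {p : ℝ} (hp : InRange p) (c : Fin 3) : mean p c ≤ 2 * giantBound p := by
  obtain ⟨s0, s1, s3, p1, hs, hs2, hr, hr0⟩ := s_bounds hp
  have hk := key_ineq hp
  have hc : √p * ((1 - p) / √p) = 1 - p := by field_simp
  have hc' : √p * (√(2 * p - 1) / √p) = √(2 * p - 1) := by field_simp
  have hy0 : 0 ≤ (1 - p) / √p := div_nonneg (by linarith) s0.le
  have hx0 : 0 ≤ √(2 * p - 1) / √p := div_nonneg hr0.le s0.le
  have hG : giantBound p = √p - (1 - p) / 2 + √(2 * p - 1) / √p - √(2 * p - 1) := by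
    unfold giantBound
    ring
  rw [hG]
  set s := √p with hsdef
  set r := √(2 * p - 1) with hrdef
  set x := r / s with hx
  set y := (1 - p) / s with hy
  fin_cases c
  · simp [mean, Fin.sum_univ_three, wt, cnt, cl, ← hsdef, ← hrdef, ← hx, ← hy]
    nlinarith
  · simp [mean, Fin.sum_univ_three, wt, cnt, cl, ← hsdef, ← hrdef, ← hx, ← hy]
    have h1 : y ≤ s := by
      rw [hy, div_le_iff₀ s0]
      nlinarith
    have h2 : 0 ≤ x * (1 - s) := mul_nonneg hx0 (by linarith)
    nlinarith
  · simp [mean, Fin.sum_univ_three, wt, cnt, cl, ← hsdef, ← hrdef, ← hx, ← hy]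
    have h1 : (1 - s) * (1 - x - y) ≤ 1 - s := by nlinarith
    have h2 : 0 ≤ x * (1 - s) := mul_nonneg hx0 (by linarith)
    have h3 : (7 : ℝ) / 10 < s := by nlinarith
    nlinarith

lemma bound_lt {p : ℝ} (hp : InRange p) : giantBound p < (1 + √(2 * p - 1)) / 2 := by
  obtain ⟨s0, s1, s3, p1, hs, hs2, hr, hr0⟩ := s_bounds hp
  have h3 : √3 ^ 2 = 3 := Real.sq_sqrt (by norm_num)
  have h3' : 0 ≤ √3 := Real.sqrt_nonneg 3
  unfold giantBound
  set s := √p with hsdef
  set r := √(2 * p - 1) with hrdef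
  have hB : s ^ 2 + 2 * s - 2 ≤ 0 := by nlinarith
  have h1 : 0 < 3 / 2 - 1 / s := by
    have : (7 : ℝ) / 10 < s := by nlinarith
    have : 1 / s < 10 / 7 := by
      rw [div_lt_div_iff₀ s0 (by norm_num)]
      linarith
    linarith
  have h2 : 0 < r * (3 / 2 - 1 / s) := mul_pos hr0 h1
  have h3 : r * (1 / s - 1) = r / 2 - r * (3 / 2 - 1 / s) := by ring
  rw [h3, ← hs]
  nlinarith

/-- The number of vertices of class `c` of a configuration. -/
noncomputable def X (c : Fin 3) (ω : (Fin (m + 1) → Bool) → Fin 3) : ℝ :=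
  ∑ y : Fin m → Bool, cnt c (ω (Fin.cons false y)) (ω (Fin.cons true y))

lemma X_eq (c : Fin 3) (ω : (Fin (m + 1) → Bool) → Fin 3) :
    X c ω = ((Finset.univ.filter (fun v : Fin (m + 1) → Bool => cl (ω v) (ω (fl v)) = c)).card : ℝ) := by
  rw [Finset.card_filter]
  push_cast
  rw [← (Fin.consEquiv (fun _ : Fin (m + 1) => Bool)).sum_comp, Fintype.sum_prod_type,
    Fintype.sum_bool]
  rw [← Finset.sum_add_distrib]
  unfold X
  refine Finset.sum_congr rfl fun y _ => ?_
  have e1 : fl (Fin.cons true y : Fin (m + 1) → Bool) = Fin.cons false y := by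
    simp [fl, Fin.update_cons_zero]
  have e2 : fl (Fin.cons false y : Fin (m + 1) → Bool) = Fin.cons true y := by
    simp [fl, Fin.update_cons_zero]
  show cnt c _ _ = (if cl (ω (Fin.cons true y)) (ω (fl (Fin.cons true y))) = c then (1:ℝ) else 0) +
    (if cl (ω (Fin.cons false y)) (ω (fl (Fin.cons false y))) = c then (1:ℝ) else 0)
  rw [e1, e2, cnt, add_comm]

/-- The contribution of one pair of partners. -/
noncomputable def Z (c : Fin 3) (y : Fin m → Bool) (ω : (Fin (m + 1) → Bool) → Fin 3) : ℝ :=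
  cnt c (ω (Fin.cons false y)) (ω (Fin.cons true y))

lemma cnt_bounds (c a b : Fin 3) : 0 ≤ cnt c a b ∧ cnt c a b ≤ 2 := by
  unfold cnt
  split_ifs <;> norm_num

lemma Z_mem {p : ℝ} [Fact (InRange p)] (c : Fin 3) (y : Fin m → Bool) :
    MemLp (Z c y) 2 (tm p m) := by
  refine MemLp.of_bound (measurable_of_countable _).aestronglyMeasurable 2 (ae_of_all _ fun ω => ?_)
  have h := cnt_bounds c (ω (Fin.cons false y)) (ω (Fin.cons true y))
  rw [Real.norm_eq_abs]
  show |cnt c (ω (Fin.cons false y)) (ω (Fin.cons true y))| ≤ 2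
  rw [abs_of_nonneg h.1]
  exact h.2

lemma cons_ne {y : Fin m → Bool} : (Fin.cons false y : Fin (m + 1) → Bool) ≠ Fin.cons true y := by
  intro h
  have := congrFun h 0
  simp at this

lemma Z_mean {p : ℝ} [hp : Fact (InRange p)] (c : Fin 3) (y : Fin m → Bool) :
    ∫ ω, Z c y ω ∂(tm p m) = mean p c := by
  have : ∀ b, IsProbabilityMeasure (law p b) := law_prob hp.out
  have h := pair_integral (fun v : Fin (m + 1) → Bool => law p (v 0))
    (Fin.cons false y) (Fin.cons true y) cons_ne (cnt c)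
  simp only [law_real hp.out, Fin.cons_zero] at h
  unfold Z tm mean
  rw [h]

lemma X_mean {p : ℝ} [Fact (InRange p)] (c : Fin 3) :
    ∫ ω, X c ω ∂(tm p m) = 2 ^ m * mean p c := by
  unfold X
  rw [integral_finsetSum _ (fun y _ => Integrable.of_finite)]
  have : ∀ y : Fin m → Bool, ∫ ω, cnt c (ω (Fin.cons false y)) (ω (Fin.cons true y)) ∂(tm p m) =
      mean p c := fun y => Z_mean c y
  simp [this]

lemma Z_indep {p : ℝ} [hp : Fact (InRange p)] (c : Fin 3) {y z : Fin m → Bool} (h : y ≠ z) :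
    IndepFun (Z c y) (Z c z) (tm p m) := by
  have : ∀ b, IsProbabilityMeasure (law p b) := law_prob hp.out
  have hne : ∀ a b : Bool, (Fin.cons a y : Fin (m + 1) → Bool) ≠ Fin.cons b z := by
    intro a b e
    apply h
    funext i
    have := congrFun e i.succ
    simpa using this
  have key := (indep_coord (fun v : Fin (m + 1) → Bool => law p (v 0))).indepFun_prodMk_prodMk
    (fun i => measurable_pi_apply i) (Fin.cons false y) (Fin.cons true y) (Fin.cons false z)
    (Fin.cons true z) (hne _ _) (hne _ _) (hne _ _) (hne _ _)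
  exact key.comp (φ := fun q : Fin 3 × Fin 3 => cnt c q.1 q.2)
    (ψ := fun q : Fin 3 × Fin 3 => cnt c q.1 q.2) (measurable_of_countable _)
    (measurable_of_countable _)

lemma Z_var {p : ℝ} [Fact (InRange p)] (c : Fin 3) (y : Fin m → Bool) :
    variance (Z c y) (tm p m) ≤ 4 := by
  refine (variance_le_expectation_sq (Z_mem c y).aestronglyMeasurable).trans ?_
  have h : ∀ ω, ((Z c y : ((Fin (m + 1) → Bool) → Fin 3) → ℝ) ^ 2) ω ≤ 4 := by
    intro ω
    have := cnt_bounds c (ω (Fin.cons false y)) (ω (Fin.cons true y))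
    show (Z c y ω) ^ 2 ≤ 4
    unfold Z
    nlinarith [this.1, this.2]
  calc ∫ ω, ((Z c y : ((Fin (m + 1) → Bool) → Fin 3) → ℝ) ^ 2) ω ∂(tm p m)
      ≤ ∫ _, (4 : ℝ) ∂(tm p m) := integral_mono (Integrable.of_finite) (Integrable.of_finite) h
    _ = 4 := by simp

lemma X_var {p : ℝ} [Fact (InRange p)] (c : Fin 3) :
    variance (X c) (tm p m) ≤ 2 ^ m * 4 := by
  have e : (X c : ((Fin (m + 1) → Bool) → Fin 3) → ℝ) = ∑ y : Fin m → Bool, Z c y := by
    funext ω
    rw [Finset.sum_apply]
    rfl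
  rw [e, IndepFun.variance_sum (fun y _ => Z_mem c y) (fun y _ z _ h => Z_indep c h)]
  calc ∑ y : Fin m → Bool, variance (Z c y) (tm p m) ≤ ∑ _y : Fin m → Bool, (4 : ℝ) :=
        Finset.sum_le_sum fun y _ => Z_var c y
    _ = 2 ^ m * 4 := by simp

lemma X_dev {p : ℝ} [Fact (InRange p)] (c : Fin 3) {ε : ℝ} (hε : 0 < ε) :
    tm p m {ω | ε * 2 ^ (m + 1) ≤ |X c ω - 2 ^ m * mean p c|} ≤
      ENNReal.ofReal (2 / (ε ^ 2 * 2 ^ (m + 1))) := by
  have hX : MemLp (X c) 2 (tm p m) := by
    have e : (X c : ((Fin (m + 1) → Bool) → Fin 3) → ℝ) = fun ω => ∑ y : Fin m → Bool, Z c y ω := rfl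
    rw [e]
    exact memLp_finsetSum _ (fun y _ => Z_mem c y)
  have h := meas_ge_le_variance_div_sq hX (c := ε * 2 ^ (m + 1)) (by positivity)
  rw [X_mean] at h
  refine h.trans (ENNReal.ofReal_le_ofReal ?_)
  rw [div_le_div_iff₀ (by positivity) (by positivity)]
  calc variance (X c) (tm p m) * (ε ^ 2 * 2 ^ (m + 1)) ≤ 2 ^ m * 4 * (ε ^ 2 * 2 ^ (m + 1)) := by
        gcongr
        exact X_var c
    _ = 2 * (ε * 2 ^ (m + 1)) ^ 2 := by ring

lemma comp_bound (ω : (Fin (m + 1) → Bool) → Fin 3) (C : (gr ω).ConnectedComponent) :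
    ∃ c : Fin 3, (C.supp.ncard : ℝ) ≤ X c ω := by
  induction C using SimpleGraph.ConnectedComponent.ind with
  | _ v =>
    refine ⟨cl (ω v) (ω (fl v)), ?_⟩
    rw [X_eq]
    have : ((gr ω).connectedComponentMk v).supp ⊆
        ((Finset.univ.filter (fun u : Fin (m + 1) → Bool =>
          cl (ω u) (ω (fl u)) = cl (ω v) (ω (fl v))) : Finset _) : Set (Fin (m + 1) → Bool)) := by
      intro u hu
      rw [SimpleGraph.ConnectedComponent.mem_supp_iff, SimpleGraph.ConnectedComponent.eq] at hu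
      simpa using reach_class ω hu
    have h2 := Set.ncard_le_ncard this (Finset.finite_toSet _)
    rw [Set.ncard_coe_finset] at h2
    exact_mod_cast h2

lemma giant {p : ℝ} [hp : Fact (InRange p)] {ε : ℝ} (hε : 0 < ε) :
    prob (mod p m) {H | ∃ C : H.ConnectedComponent,
      (giantBound p + ε) * 2 ^ (m + 1) < (C.supp.ncard : ℝ)} ≤
      ENNReal.ofReal (6 / (ε ^ 2 * 2 ^ (m + 1))) := by
  rw [prob_mod]
  have hsub : {ω : (Fin (m + 1) → Bool) → Fin 3 | gr ω ∈ {H : SimpleGraph (Fin (m + 1) → Bool) |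
      ∃ C : H.ConnectedComponent, (giantBound p + ε) * 2 ^ (m + 1) < (C.supp.ncard : ℝ)}} ⊆
      ⋃ c : Fin 3, {ω | ε * 2 ^ (m + 1) ≤ |X c ω - 2 ^ m * mean p c|} := by
    intro ω hω
    obtain ⟨C, hC⟩ := hω
    obtain ⟨c, hc⟩ := comp_bound ω C
    refine Set.mem_iUnion.2 ⟨c, ?_⟩
    have h1 : 2 ^ m * mean p c ≤ 2 ^ (m + 1) * giantBound p := by
      have := mean_le hp.out c
      have h2 : (0 : ℝ) < 2 ^ m := by positivity
      calc 2 ^ m * mean p c ≤ 2 ^ m * (2 * giantBound p) := by gcongr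
        _ = 2 ^ (m + 1) * giantBound p := by ring
    have h2 : ε * 2 ^ (m + 1) ≤ X c ω - 2 ^ m * mean p c := by
      have : (giantBound p + ε) * 2 ^ (m + 1) < X c ω := lt_of_lt_of_le hC hc
      nlinarith
    exact h2.trans (le_abs_self _)
  refine (measure_mono hsub).trans ?_
  refine (measure_iUnion_fintype_le _ _).trans ?_
  calc ∑ c : Fin 3, tm p m {ω | ε * 2 ^ (m + 1) ≤ |X c ω - 2 ^ m * mean p c|}
      ≤ ∑ _c : Fin 3, ENNReal.ofReal (2 / (ε ^ 2 * 2 ^ (m + 1))) :=
        Finset.sum_le_sum fun c _ => X_dev c hε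
    _ = ENNReal.ofReal (6 / (ε ^ 2 * 2 ^ (m + 1))) := by
        rw [← ENNReal.ofReal_sum_of_nonneg (fun _ _ => by positivity)]
        congr 1
        simp
        ring

end concentration

/-- The more precise form of the conjecture, for one value of `p`: for all models on the
hypercubes in which every edge is open with probability at least `p`, with probability tending
to one there is a component with at least `((1 + √(2p-1))/2 - δ) 2^n` vertices, for
every `δ > 0`. -/
def PreciseConjecture (p : ℝ) : Prop :=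
  ∀ μ : ∀ n : ℕ, PMF (SimpleGraph (Fin n → Bool)), (∀ n, Model (cube n) p (μ n)) →
    ∀ δ : ℝ, 0 < δ → Tendsto (fun n => prob (μ n) {H | ∃ C : H.ConnectedComponent,
      ((1 + √(2 * p - 1)) / 2 - δ) * 2 ^ n ≤ (C.supp.ncard : ℝ)}) atTop (𝓝 1)

/-- The models for all dimensions. -/
noncomputable def seq (p : ℝ) [Fact (InRange p)] : ∀ n : ℕ, PMF (SimpleGraph (Fin n → Bool))
  | 0 => PMF.pure ⊥
  | m + 1 => mod p m

lemma seq_model (p : ℝ) [Fact (InRange p)] : ∀ n, Model (cube n) p (seq p n)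
  | 0 => by
    refine ⟨?_, ?_, ?_⟩
    · intro H hH
      simp only [seq, PMF.support_pure, Set.mem_singleton_iff] at hH
      rw [hH]
      exact bot_le
    · intro S T _ A B
      simp only [seq, prob]
      rw [PMF.toOuterMeasure_pure_apply, PMF.toOuterMeasure_pure_apply,
        PMF.toOuterMeasure_pure_apply]
      simp only [Set.mem_ofPred_eq]
      by_cases h1 : (⊥ : SimpleGraph S) ∈ A <;>
        by_cases h2 : (⊥ : SimpleGraph T) ∈ B <;> simp [h1, h2]
    · intro u v huv
      exact absurd (Subsingleton.elim u v) huv.ne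
  | m + 1 => model p

lemma bound_half {p : ℝ} (hp : InRange p) (h : p ≤ 504 / 1000) : giantBound p < 1 / 2 := by
  obtain ⟨s0, s1, s3, p1, hs, hs2, hr, hr0⟩ := s_bounds hp
  unfold giantBound
  set s := √p with hsdef
  set r := √(2 * p - 1) with hrdef
  have h1 : s ≤ 70994 / 100000 := by nlinarith
  have h2 : r ≤ 8945 / 100000 := by nlinarith
  have h3 : (7071 : ℝ) / 10000 ≤ s := by nlinarith
  have h4 : 1 / s - 1 ≤ 41423 / 100000 := by
    have : 1 / s ≤ 141423 / 100000 := by
      rw [div_le_div_iff₀ s0 (by norm_num)]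
      linarith
    linarith
  have h5 : r * (1 / s - 1) ≤ 8945 / 100000 * (41423 / 100000) := by
    have h6 : 0 ≤ 1 / s - 1 := by
      have : 1 ≤ 1 / s := by
        rw [le_div_iff₀ s0]
        linarith
      linarith
    exact mul_le_mul h2 h4 h6 (by norm_num)
  linarith

/-- **Main theorem.** -/
theorem result (p : ℝ) (hp : 1 / 2 < p) (hp' : p ≤ 4 - 2 * √3) :
    (∀ n : ℕ, 1 ≤ n → ∃ μ : PMF (SimpleGraph (Fin n → Bool)), Model (cube n) p μ ∧
      ∀ ε : ℝ, 0 < ε →
        prob μ {H | ∃ C : H.ConnectedComponent,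
          (giantBound p + ε) * 2 ^ n < (C.supp.ncard : ℝ)} ≤
            ENNReal.ofReal (6 / (ε ^ 2 * 2 ^ n))) ∧
    giantBound p < (1 + √(2 * p - 1)) / 2 ∧ (p ≤ 504 / 1000 → giantBound p < 1 / 2) ∧
    ¬ PreciseConjecture p := by
  have hF : Fact (InRange p) := ⟨⟨hp, hp'⟩⟩
  refine ⟨?_, bound_lt hF.out, bound_half hF.out, ?_⟩
  · intro n hn
    obtain ⟨m, rfl⟩ := Nat.exists_eq_add_of_le' hn
    exact ⟨mod p m, model p, fun ε hε => giant hε⟩
  · intro hC
    have hlt := bound_lt hF.out
    set δ := ((1 + √(2 * p - 1)) / 2 - giantBound p) / 2 with hδ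
    have hδ0 : 0 < δ := by
      rw [hδ]
      linarith
    have h1 := hC (seq p) (seq_model p) δ hδ0
    have h2 : ∀ n : ℕ, 1 ≤ n → prob (seq p n) {H | ∃ C : H.ConnectedComponent,
        ((1 + √(2 * p - 1)) / 2 - δ) * 2 ^ n ≤ (C.supp.ncard : ℝ)} ≤
          ENNReal.ofReal (6 / ((δ / 2) ^ 2 * 2 ^ n)) := by
      intro n hn
      obtain ⟨m, rfl⟩ := Nat.exists_eq_add_of_le' hn
      refine le_trans ?_ (giant (m := m) (p := p) (half_pos hδ0))
      refine (mod p m).toOuterMeasure.mono ?_
      rintro H ⟨C, hC⟩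
      refine ⟨C, lt_of_lt_of_le ?_ hC⟩
      have h3 : (0 : ℝ) < 2 ^ (m + 1) := by positivity
      have h4 : giantBound p + δ / 2 < (1 + √(2 * p - 1)) / 2 - δ := by
        rw [hδ] at hδ0 ⊢
        linarith
      exact mul_lt_mul_of_pos_right h4 h3
    have h5 : Tendsto (fun n : ℕ => ENNReal.ofReal (6 / ((δ / 2) ^ 2 * 2 ^ n))) atTop (𝓝 0) := by
      rw [← ENNReal.ofReal_zero]
      refine ENNReal.tendsto_ofReal ?_
      have h6 : Tendsto (fun n : ℕ => (6 / (δ / 2) ^ 2) * ((1 : ℝ) / 2) ^ n) atTop (𝓝 0) := by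
        have := (tendsto_pow_atTop_nhds_zero_of_lt_one (r := (1 : ℝ) / 2) (by norm_num)
          (by norm_num)).const_mul (6 / (δ / 2) ^ 2)
        simpa using this
      refine h6.congr fun n => ?_
      rw [one_div, inv_pow]
      field_simp
    have h7 : (1 : ENNReal) ≤ 0 := by
      refine le_of_tendsto_of_tendsto h1 h5 ?_
      filter_upwards [eventually_ge_atTop 1] with n hn
      exact h2 n hn
    simp at h7

end Pool.Agent.Results.MP_352fa8_pr.SmallGiant
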